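import Pool.Agent.H99.D2.Vna
import Pool.Agent.H18.PN.Tel

/-!
# The blind labels at the rounded samples, for a list whose levels are not sorted

`blf_blC`: as `Pool.CR99.blf_blC`, the level of the last coordinate of the base in the place of the
radius of fullness of the base, for a chain.
-/

set_option autoImplicit false

namespace Pool.W.CR99

open Finset Real MvPolynomial
open Pool.Agent.H49.Ent Pool.Agent.H32.Dense Pool.STK Pool.KA Pool.KSAT Pool.K2S Pool.PB Pool.S6C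
open Pool.GEN Pool.CHT Pool.CHX Pool.ISO Pool.D2R Pool.D2G30 Pool.V1E
open Pool.FLF (Fam.sub)
open Pool.PB.Trl (rt rt_mem t_rt)
open Pool.GRD (LbP)
open Pool.BFL (Pb)
open Pool.GRW (xr)
open Pool.ALT (BlC BlB sbu sbu_eval sbu_deg sbu_dep DpI Upg wz wz_slam floorw)
open Pool.CR99

variable {m : ℕ}

theorem inv_pow_le {a : ℝ} {P : ℕ} (h : a ≤ P) : 1 / (2 : ℝ) ^ P ≤ 2 ^ (-a) := by
  rw [one_div, ← Real.rpow_natCast, ← Real.rpow_neg (by norm_num)]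
  exact Real.rpow_le_rpow_of_exponent_le (by norm_num) (by linarith)

/-- **The labels of the family `BlF` are near all labels of the windows before `v k`**, at the rounded
samples: the bound has the level of the last coordinate of the base. -/
theorem blf_blC {S : PCl m} {C₀ : ℝ} (hC₀ : 0 ≤ C₀) (htm : TmC S C₀) {c : ℕ → Fin m}
    {r K K₁ K₂ Ku : ℕ} {e₀ ρ₀ π₀ w : ℝ} {n : ℕ} {v p₁ x₀ : ℕ → ℝ} {k : ℕ} (hk : k < n)
    {v' u : ℝ} (hwv : w ≤ v k) (hv' : v' ≤ v k) (hvu : v k ≤ u) (hu0 : 0 ≤ u) (hu : u < 1)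
    (hful : Pool.TOP.Ful S ((range (r + 1)).image c) (v k) u)
    {r₀ : ℕ} (hr : r₀ ≤ r) {u₀ u₁ : ℝ} {s rd : ℕ → ℝ}
    (hch : Pool.LA91.Chn S c r₀ (r + 1) (v k) u₀ u₁ s rd) {p p₂ x : ℝ} (_ : 0 ≤ p)
    (hx₀ : x₀ k < x) (hx₁ : s r - p₁ k < x) (hx₂ : s r - p < x) :
    BlC S c r (c (r + 1)) w v' K₂ Ku p p₂ x (BlF c r K K₁ e₀ ρ₀ π₀ w n v p₁ x₀) := by
  classical
  intro η χ hη hχ
  have hl2 : 0 < Real.log 2 := Real.log_pos one_lt_two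
  obtain ⟨x', hx'⟩ : ∃ x' : ℝ, x' = (max (x₀ k) (max (s r - p₁ k) (s r - p)) + x) / 2 := ⟨_, rfl⟩
  have hmx : max (x₀ k) (max (s r - p₁ k) (s r - p)) < x := max_lt hx₀ (max_lt hx₁ hx₂)
  have hx'x : x' < x := by rw [hx']; linarith
  have hx0' : x₀ k < x' := by
    rw [hx']
    have := le_max_left (x₀ k) (max (s r - p₁ k) (s r - p))
    linarith
  have hx1' : s r - min (p₁ k) p < x' := by
    rw [hx']
    have h1 : s r - min (p₁ k) p = max (s r - p₁ k) (s r - p) := by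
      rcases le_total (p₁ k) p with h | h
      · rw [min_eq_left h, max_eq_left (by linarith)]
      · rw [min_eq_right h, max_eq_right (by linarith)]
    rw [h1]
    have := le_max_right (x₀ k) (max (s r - p₁ k) (s r - p))
    linarith
  obtain ⟨J₁, hJ₁⟩ := exists_nat_ge (3 / (x - x'))
  obtain ⟨h', hh'⟩ : ∃ h' : ℝ, h' = (x' - x₀ k) * Real.log 2 := ⟨_, rfl⟩
  have hh'0 : 0 < h' := by rw [hh']; exact mul_pos (by linarith) hl2
  obtain ⟨η', hη'⟩ : ∃ η' : ℝ, η' = min (η / 2) 1 := ⟨_, rfl⟩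
  have hη0 : 0 < η' := by rw [hη']; exact lt_min (by linarith) one_pos
  have hη1 : η' ≤ 1 := by rw [hη']; exact min_le_right _ _
  have hηη : η' ≤ η / 2 := by rw [hη']; exact min_le_left _ _
  obtain ⟨ε, hε⟩ : ∃ ε : ℝ, ε = x' - (s r - min (p₁ k) p) := ⟨_, rfl⟩
  have hε0 : 0 < ε := by rw [hε]; linarith
  refine Bas.mono (J₁ + 1) (((Pool.ALT.sl_step htm hr hch (c (r + 1)) hε0 (max K₁ K₂)
    (η := η / 2) (by linarith)).and
    (Pool.TOP.uni_cls hC₀ htm _ hvu hu0 hu hful (max K₁ K) hh'0 hη0 hη1)).and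
    (Pool.GRW.tmc_bas htm one_pos)) ?_
  rintro J hJ F A ⟨⟨H, Hu⟩, hA, -⟩ V z z' G hΨ P₁ V₁ z₁ z₁' G₁ hG₁ hP₁ P₂ V₂ z₂ z₂' H₂ hH hP₂
  have hJ0 : (0 : ℝ) ≤ J := Nat.cast_nonneg J
  obtain ⟨V₃, z₃, z₃', G₃, P₃, h1, h2, h3⟩ := hΨ.2 k hk
  obtain ⟨g1, g2⟩ := floorw hwv (hvu.trans hu.le) J
  obtain ⟨f1, f2⟩ := floorw hv' (hvu.trans hu.le) J
  have hp1 := H P₁ P₃ V₁ V₃ z₁ (wz z₁' ⌊v' * J⌋₊ ⌊v k * J⌋₊) G₁ z₃ z₃' G₃
    ((lbp_wz hG₁ f1 f2).mono (Finset.Subset.refl _) (le_max_right _ _) le_rfl)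
    (h1.mono (Finset.Subset.refl _) (le_max_left _ _) le_rfl)
  obtain ⟨B', c1, c2, c3⟩ := Hu (V₃ × V) (fun y => (z₃ y, z y))
    (fun s => (z₃' s, wz z' ⌊w * J⌋₊ ⌊v k * J⌋₊ s))
    (fun x => pderiv (some (c r)) (G₃ x.1 - G x.2)) (fun _ => 2 ^ (x₀ k * J))
    (fun x => (pd_deg _ _).trans ((totalDegree_sub _ _).trans
      (max_le ((h1.deg _).trans (le_max_left _ _)) ((hΨ.1.deg _).trans (le_max_right _ _)))))
    (fun x => pd_dpI _ (DpI.sub (h1.dep _) (hΨ.1.dep _)))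
    (fun ω hω => by rw [h1.cls ω hω, wz_slam z' g1 g2, hΨ.1.cls ω hω])
    (fun _ => Real.rpow_pos_of_pos (by norm_num) _) (fun ω hω => by
      rw [wz_slam z' g1 g2]
      exact h3 ω hω)
  obtain ⟨q', hq'⟩ : ∃ q' : F.Ω → ℝ, q' = Pool.Agent.H49.Ent.cond F.p A True := ⟨_, rfl⟩
  have hq'l : IsLaw q' := by
    rw [hq']
    exact isLaw_cond F.isLaw hA
  have hp2 := pb_off (A := A) (B := B') F.isLaw.nonneg hA c1 c2
  rw [← hq'] at hp1 hp2 ⊢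
  obtain ⟨Q, hQ⟩ : ∃ Q : F.Ω → Prop, Q = fun ω =>
      ¬ |eval (xr F ω) (pderiv (some (c r)) (G₁ ((wz z₁' ⌊v' * J⌋₊ ⌊v k * J⌋₊) (slam F ⌊v k * J⌋₊ ω)) -
          G₃ (z₃' (slam F ⌊v k * J⌋₊ ω))))| ≤
          2 ^ ((s r + ε) * J) * (1 / 2 ^ P₁ + 1 / 2 ^ P₃) := ⟨_, rfl⟩
  rw [← hQ] at hp1
  have hor : Pb q' (fun ω => Q ω ∨ ¬ B' ω) ≤ Pb q' Q + Pb q' (fun ω => ¬ B' ω) :=
    Pool.LIV.Pb_or25 hq'l.nonneg _ _
  refine le_trans (Pool.GRD.Pb_mono_pos hq'l.nonneg fun ω hω0 hω => ?_)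
    (hor.trans (by linarith))
  by_contra hcon
  rw [not_or, hQ, not_not, not_not] at hcon
  obtain ⟨h4, hB'ω⟩ := hcon
  have hnear : ∀ o, |xr F ω o - bt F ω o| ≤ 1 / 2 ^ ⌊u * J⌋₊ := fun o => by
    refine (Pool.GRW.xr_near F ω o).trans ?_
    refine one_div_le_one_div_of_le (by positivity) (pow_le_pow_right₀ (by norm_num) ?_)
    exact (floorw le_rfl hu.le J).2
  rw [wz_slam z₁' f1 f2] at h4
  have h5 := c3 ω hB'ω (xr F ω) (fun o => (hnear o).trans (by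
    have : (0 : ℝ) ≤ 1 / 2 ^ ⌊u * J⌋₊ := by positivity
    linarith))
  beta_reduce at h5
  rw [wz_slam z' g1 g2] at h5
  have e0 : Real.exp (h' * J) * 2 ^ (x₀ k * J) = (2 : ℝ) ^ (x' * J) := by
    rw [rp_exp, rp_exp, ← Real.exp_add]
    congr 1
    rw [hh']
    ring
  rw [e0] at h5
  have h4' : |eval (xr F ω) (pderiv (some (c r)) (G₁ (z₁' (slam F ⌊v' * J⌋₊ ω)) -
      G₃ (z₃' (slam F ⌊v k * J⌋₊ ω))))| ≤ 2 ^ (x' * J) + 2 ^ (x' * J) := by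
    have hmin : ∀ P : ℕ, min (p₁ k) p * J ≤ P → 1 / (2 : ℝ) ^ P ≤ 2 ^ (-(min (p₁ k) p * J)) :=
      fun P hP => inv_pow_le hP
    have i1 := hmin P₁ (by
      have e1 : min (p₁ k) p * J ≤ p * J := mul_le_mul_of_nonneg_right (min_le_right _ _) hJ0
      have e2 : (p + χ) * J = p * J + χ * J := by ring
      have e3 : 0 ≤ χ * J := by positivity
      linarith)
    have i2 := hmin P₃ (le_trans (mul_le_mul_of_nonneg_right (min_le_left _ _) hJ0) h2)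
    have i3 : (2 : ℝ) ^ ((s r + ε) * J) * 2 ^ (-(min (p₁ k) p * J)) = 2 ^ (x' * J) := by
      rw [← Real.rpow_add (by norm_num)]
      congr 1
      rw [hε]
      ring
    have i4 : (0 : ℝ) < 2 ^ ((s r + ε) * J) := Real.rpow_pos_of_pos (by norm_num) _
    refine h4.trans ((mul_le_mul_of_nonneg_left (add_le_add i1 i2) i4.le).trans (le_of_eq ?_))
    rw [mul_add, i3]
  have h6 : |eval (xr F ω) (pderiv (some (c r)) (G₁ (z₁' (slam F ⌊v' * J⌋₊ ω)) -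
      G (z' (slam F ⌊w * J⌋₊ ω))))| ≤ 2 ^ (x' * J) + 2 ^ (x' * J) + 2 ^ (x' * J) := by
    have e1 : G₁ (z₁' (slam F ⌊v' * J⌋₊ ω)) - G (z' (slam F ⌊w * J⌋₊ ω)) =
        (G₁ (z₁' (slam F ⌊v' * J⌋₊ ω)) - G₃ (z₃' (slam F ⌊v k * J⌋₊ ω))) +
        (G₃ (z₃' (slam F ⌊v k * J⌋₊ ω)) - G (z' (slam F ⌊w * J⌋₊ ω))) := by ring
    rw [e1, map_add, map_add]
    exact (abs_add_le _ _).trans (add_le_add h4' h5)
  have h7 : (2 : ℝ) ^ (x' * J) + 2 ^ (x' * J) + 2 ^ (x' * J) < 2 ^ (x * J) := by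
    have hpos : (0 : ℝ) < 2 ^ (x' * J) := Real.rpow_pos_of_pos (by norm_num) _
    have e1 : (2 : ℝ) ^ (x' * J) + 2 ^ (x' * J) + 2 ^ (x' * J) < 2 ^ (x' * J + 2) := by
      rw [Real.rpow_add (by norm_num), Real.rpow_two]
      linarith
    refine e1.trans_le (Real.rpow_le_rpow_of_exponent_le (by norm_num) ?_)
    have e2 : (J₁ : ℝ) ≤ J := by exact_mod_cast (Nat.le_succ J₁).trans hJ
    have e3 := hJ₁.trans e2
    rw [div_le_iff₀ (by linarith)] at e3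
    linarith
  exact absurd hω (not_le.2 (lt_of_le_of_lt h6 h7))

end Pool.W.CR99
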