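import Pool.Agent.H50.SWR.Num3
import Pool.Agent.H2.GEN.ChU

/-!
# One more coordinate before the target

`thr_app`: the thresholds of a coordinate over a list are at most the thresholds over the list with
one more coordinate at its end; for the natural exponents (`nat_app`) and for the exponents over all
places (`w_app`). The new coordinate has the trivial label of precision one.
-/

set_option autoImplicit false

namespace Pool.SWR

open Finset Real MvPolynomial
open Pool.Agent.H49.Ent Pool.Agent.H32.Dense Pool.STK Pool.KA Pool.KSAT Pool.K2S Pool.PB Pool.S6C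
open Pool.GEN Pool.CHT
open Pool.LBT (LSys Slo Tri ThrOf Reg fl_le' bas_false)
open Pool.LEV (Law)

variable {n J : ℕ}

/-- The levels with one more place. -/
def gap (k : ℕ) (g : ℕ → ℕ) (j : ℕ) : ℕ := if j < k then g j else if j = k then 0 else g k

/-- **Comparison** of thresholds for large windows, with the loss of one digit. -/
theorem thr_le1 {L L' : LSys n} {S : PCl n} {P : L.ι → ℝ → ℝ → ℝ} {P' : L'.ι → ℝ → ℝ → ℝ}
    (hS : S.Ne) (hP : ThrOf L S P) (hP' : ThrOf L' S P') {i : L.ι} {i' : L'.ι}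
    (h : ∀ K : ℕ, ∃ K' : ℕ, ∀ (a w Q J : ℕ) (F : Fam n J) (A : F.Ω → Prop), 1 ≤ w → w ≤ a → a ≤ J →
      L.T i K a w (Q + 1) J F A → L'.T i' K' a w Q J F A) {a w : ℝ} {a' w' : ℚ} (hw : 0 < w)
    (hwa : w ≤ a) (ha : a ≤ a') (hww : w ≤ w') (hwa' : w' ≤ a') (ha' : a' ≤ 1) :
    P i a w ≤ P' i' a' w' := by
  by_contra hcon
  push Not at hcon
  have haR : (a' : ℝ) ≤ 1 := by exact_mod_cast ha'
  have hwaR : (w' : ℝ) ≤ a' := by exact_mod_cast hwa'
  have h0 : 0 ≤ P' i' a' w' := by
    have h1 := hP'.low i' a' w' (hw.le.trans hww) hwaR haR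
    have h2 : (0 : ℝ) ≤ a' := (hw.le.trans hwa).trans ha
    linarith
  obtain ⟨e, he⟩ : ∃ e, e = (P i a w - P' i' a' w') / 3 := ⟨_, rfl⟩
  have he0 : 0 < e := by rw [he]; linarith
  have h1 := hP.up i a w hw.le hwa (ha.trans haR)
  obtain ⟨K, hK⟩ := hP.att i a w e hw hwa (ha.trans haR) he0 (by linarith)
  obtain ⟨K', hK'⟩ := h K
  have hno := hP'.no i' K' a' w' e (by exact_mod_cast hw.le.trans hww) hwa' ha' he0 (by linarith)
  obtain ⟨J₁, hJ₁⟩ := exists_nat_ge (1 / e)
  obtain ⟨J₂, hJ₂⟩ := exists_nat_ge (1 / w)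
  refine bas_false hS (Bas.mono (max J₁ J₂) hK ?_) hno
  intro J hJ F A hT
  have hJ0 : (0 : ℝ) ≤ J := Nat.cast_nonneg J
  have hJ1 : 1 ≤ e * J := by
    have k1 : (J₁ : ℝ) ≤ J := by exact_mod_cast (le_max_left _ _).trans hJ
    have k2 := hJ₁.trans k1
    rw [div_le_iff₀ he0] at k2
    linarith
  have hJ2 : 1 ≤ w * J := by
    have k1 : (J₂ : ℝ) ≤ J := by exact_mod_cast (le_max_right _ _).trans hJ
    have k2 := hJ₂.trans k1
    rw [div_le_iff₀ hw] at k2
    linarith
  have e1 : P i a w - e = P' i' a' w' + 2 * e := by rw [he]; ring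
  rw [e1] at hT
  have k0 : 0 ≤ (P' i' a' w' + e) * J := mul_nonneg (by linarith) hJ0
  have k3 : ⌊(P' i' a' w' + e) * J⌋₊ + 1 ≤ ⌊(P' i' a' w' + 2 * e) * J⌋₊ := by
    refine Nat.le_floor ?_
    push_cast
    have := Nat.floor_le k0
    have e2 : (P' i' a' w' + 2 * e) * J = (P' i' a' w' + e) * J + e * J := by ring
    rw [e2]
    linarith
  refine L'.mono le_rfl (Nat.floor_le_floor (mul_le_mul_of_nonneg_right ha hJ0))
    (Nat.floor_le_floor (mul_le_mul_of_nonneg_right hww hJ0))
    (Nat.floor_le_floor (mul_le_mul_of_nonneg_right hwaR hJ0)) (fl_le' haR J) (hK' _ _ _ _ _ _ ?_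
      (Nat.floor_le_floor (mul_le_mul_of_nonneg_right hwa hJ0)) (fl_le' (ha.trans haR) J)
      (L.anti k3 hT))
  exact Nat.le_floor (by exact_mod_cast hJ2)

/-- The exponents with one more place. -/
theorem nat_nlp {k l : ℕ} {g : ℕ → ℕ} (hl : l < k) : Pool.GEN.nlp g l k ≤ Pool.GEN.nlp (gap k g) l (k + 1) := by
  have e1 : gap k g (k + 1) = g k := by
    unfold gap
    rw [if_neg (by omega), if_neg (by omega)]
  unfold Pool.GEN.nlp
  rw [e1]
  refine Nat.sub_le_sub_right (Finset.sup_le fun j hj => ?_) _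
  rw [Finset.mem_Icc] at hj
  rcases Nat.lt_or_ge j k with h1 | h1
  · have e2 : gap k g j = g j := if_pos h1
    rw [← e2]
    exact Finset.le_sup (f := gap k g) (Finset.mem_Icc.2 (by omega))
  · have e3 : j = k := by omega
    rw [e3, ← e1]
    exact Finset.le_sup (f := gap k g) (Finset.mem_Icc.2 (by omega))

/-- **One more label before the last one.** -/
theorem nat_chn_app {F : Fam n J} {c c' : ℕ → Fin n} {k K a w e : ℕ} {g : ℕ → ℕ} {A : F.Ω → Prop}
    (h : Pool.GEN.ChN F c (k + 1) (fun _ => K) a w e g A) (h1 : ∀ j < k, c' j = c j)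
    (h2 : c' (k + 1) = c k) (hx : ∀ j < k, c' k ≠ c j) (hw1 : 1 ≤ w) (hwJ : w ≤ J) :
    Pool.GEN.ChN F c' (k + 2) (fun _ => K) a w e (gap k g) A := by
  obtain ⟨G, H, h⟩ := h
  obtain ⟨G1, H1, t⟩ := Pool.CHT.chN_trivial F (fun _ => c' k) 1 (fun _ => 0) a e (P := 0) hw1 hwJ A
  obtain ⟨G', hG'⟩ : ∃ G' : PtT F → ℕ → MvPolynomial (Option (Fin n)) ℝ,
    G' = fun y j => if j < k then G y j else if j = k then G1 y 0 else G y k := ⟨_, rfl⟩
  obtain ⟨H', hH'⟩ : ∃ H' : LnT F → ℕ → MvPolynomial (Option (Fin n)) ℝ,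
    H' = fun s j => if j < k then H s j else if j = k then H1 s 0 else H s k := ⟨_, rfl⟩
  have a1 : ∀ y j, j < k → G' y j = G y j := fun y j hj => by rw [hG']; exact if_pos hj
  have a2 : ∀ y, G' y k = G1 y 0 := fun y => by
    rw [hG']
    show (if k < k then G y k else if k = k then G1 y 0 else G y k) = _
    rw [if_neg (lt_irrefl k), if_pos rfl]
  have a3 : ∀ y j, k < j → G' y j = G y k := fun y j hj => by
    rw [hG']
    show (if j < k then G y j else if j = k then G1 y 0 else G y k) = _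
    rw [if_neg (by omega), if_neg (by omega)]
  have b1 : ∀ s j, j < k → H' s j = H s j := fun s j hj => by rw [hH']; exact if_pos hj
  have b2 : ∀ s, H' s k = H1 s 0 := fun s => by
    rw [hH']
    show (if k < k then H s k else if k = k then H1 s 0 else H s k) = _
    rw [if_neg (lt_irrefl k), if_pos rfl]
  have b3 : ∀ s j, k < j → H' s j = H s k := fun s j hj => by
    rw [hH']
    show (if j < k then H s j else if j = k then H1 s 0 else H s k) = _
    rw [if_neg (by omega), if_neg (by omega)]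
  have g1 : ∀ j < k, gap k g j = g j := fun j hj => if_pos hj
  have g2 : gap k g k = 0 := by
    unfold gap
    rw [if_neg (lt_irrefl k), if_pos rfl]
  have g3 : gap k g (k + 1) = g k := by
    unfold gap
    rw [if_neg (by omega), if_neg (by omega)]
  have hb : ∀ (y : PtT F) (t : ℝ) (i j : ℕ) (b : Option (Fin n) → ℝ), i ≤ k → i ≤ j →
      NBx c' (G' y) (gap k g) a t j b → NBx c (G y) g a t i b := by
    intro y t i j b hi hij hb
    refine ⟨hb.1, fun l hl => ?_⟩
    have h3 := hb.2 l (by omega)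
    rwa [h1 l (by omega), a1 y l (by omega), g1 l (by omega)] at h3
  have hb1 : ∀ (y : PtT F) (t : ℝ) (j : ℕ) (b : Option (Fin n) → ℝ),
      NBx c' (G' y) (gap k g) a t j b → NBx (fun _ => c' k) (G1 y) (fun _ => 0) a t 0 b :=
    fun y t j b hb => ⟨hb.1, fun l hl => absurd hl (Nat.not_lt_zero l)⟩
  have dc : ∀ {c₁ : ℕ → Fin n} {Q : MvPolynomial (Option (Fin n)) ℝ}, DepC c₁ 0 Q → ∀ i,
      DepC c' i Q := fun hQ i b b' k1 k2 => hQ b b' k1 fun l hl => absurd hl (Nat.not_lt_zero l)
  have dk : ∀ {Q : MvPolynomial (Option (Fin n)) ℝ}, DepC c k Q → ∀ i, k ≤ i → DepC c' i Q :=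
    fun hQ i hi b b' k1 k2 => hQ b b' k1 fun l hl => by
      rw [← h1 l hl]
      exact k2 l (by omega)
  have tri : ∀ i, i < k ∨ i = k ∨ k < i := fun i => by omega
  refine ⟨G', H', fun y i => ?_, fun s i => ?_, fun y i => ?_, fun s i => ?_, fun ω hω i hi => ?_,
    fun ω hω i hi b hbx => ?_, fun ω hω i hi b hbx l hl => ?_⟩
  · rcases tri i with h3 | rfl | h3
    · rw [a1 y i h3]
      exact h.degG y i
    · rw [a2 y]
      exact (t.degG y 0).trans (Nat.zero_le _)
    · rw [a3 y i h3]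
      exact h.degG y k
  · rcases tri i with h3 | rfl | h3
    · rw [b1 s i h3]
      exact h.degH s i
    · rw [b2 s]
      exact (t.degH s 0).trans (Nat.zero_le _)
    · rw [b3 s i h3]
      exact h.degH s k
  · rcases tri i with h3 | rfl | h3
    · rw [a1 y i h3]
      exact Pool.CHT.DepC.congr (h.depG y i) fun l hl => (h1 l (hl.trans h3)).symm
    · rw [a2 y]
      exact dc (t.depG y 0) _
    · rw [a3 y i h3]
      exact dk (h.depG y k) i h3.le
  · rcases tri i with h3 | rfl | h3
    · rw [b1 s i h3]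
      exact Pool.CHT.DepC.congr (h.depH s i) fun l hl => (h1 l (hl.trans h3)).symm
    · rw [b2 s]
      exact dc (t.depH s 0) _
    · rw [b3 s i h3]
      exact dk (h.depH s k) i h3.le
  · rcases tri i with h3 | rfl | h3
    · rw [a1 _ i h3, g1 i h3, h1 i h3]
      exact h.pos ω hω i (by omega)
    · rw [a2, g2]
      exact t.pos ω hω 0 one_pos
    · have h4 : i = k + 1 := by omega
      subst h4
      rw [a3 _ _ h3, g3, h2]
      exact h.pos ω hω k (by omega)
  · rcases tri i with h3 | rfl | h3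
    · rw [a1 _ i h3, b1 _ i h3, g1 i h3]
      exact h.agr ω hω i (by omega) b (hb _ _ i i b h3.le le_rfl hbx)
    · rw [a2, b2, g2]
      exact t.agr ω hω 0 one_pos b (hb1 _ _ _ b hbx)
    · have h4 : i = k + 1 := by omega
      subst h4
      rw [a3 _ _ h3, b3 _ _ h3, g3]
      exact h.agr ω hω k (by omega) b (hb _ _ k _ b le_rfl (by omega) hbx)
  · rcases tri i with h3 | rfl | h3
    · rw [a1 _ i h3, h1 l (by omega), ← Pool.CHT.nlp_congr (l := l) (g := g) (g' := gap k g)
        fun j hj => (g1 j (by omega)).symm]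
      exact h.lip ω hω i (by omega) b (hb _ _ i i b h3.le le_rfl hbx) l hl
    · rw [a2, Pool.CHT.DepC.pd_zero (t.depG _ 0) (by simp) (fun l' hl' => absurd hl' (Nat.not_lt_zero l')),
        abs_zero]
      positivity
    · have h4 : i = k + 1 := by omega
      subst h4
      rw [a3 _ _ h3]
      rcases Nat.lt_or_ge l k with h5 | h5
      · rw [h1 l h5]
        exact (h.lip ω hω k (by omega) b (hb _ _ k _ b le_rfl (by omega) hbx) l h5).trans
          (pow_le_pow_right₀ (by norm_num) (Nat.add_le_add_left (nat_nlp h5) e))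
      · have h6 : l = k := by omega
        subst h6
        rw [Pool.CHT.DepC.pd_zero (h.depG _ l) (by simp) (fun l' hl' h7 => hx l' hl'
          (Option.some.inj h7)), abs_zero]
        positivity

/-- The place of the list with one more coordinate. -/
theorem nat_cht_app {θ : ℝ} {l : List (Fin n)} {k x : Fin n} (hx : x ∉ l) {K a w P : ℕ} {F : Fam n J}
    {A : F.Ω → Prop} (hw1 : 1 ≤ w) (hwa : w ≤ a) (haJ : a ≤ J) (h : Pool.CHT.Cht θ l k K a w (P + 1) J F A) :
    Pool.CHT.Cht θ (l ++ [x]) k K a w P J F A := by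
  obtain ⟨a₀, w₀, g, k1, k2, k3, k4, k5, k6⟩ := h
  have hlen : (l ++ [x]).length = l.length + 1 := by simp
  have g3 : gap l.length g (l.length + 1) = g l.length := by
    unfold gap
    rw [if_neg (by omega), if_neg (by omega)]
  refine ⟨max a₀ 1, max w₀ 1, gap l.length g, ?_, ?_, ?_, ?_, ?_, ?_⟩
  · exact max_le_max k1 le_rfl
  · exact max_le k2 (hw1.trans hwa)
  · exact max_le k3 hw1
  · rw [hlen, g3]
    rcases Nat.lt_or_ge a₀ 1 with h1 | h1
    · have e1 : max a₀ 1 = 1 := max_eq_right h1.le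
      rw [e1]
      omega
    · have e1 : max a₀ 1 = a₀ := max_eq_left h1
      rw [e1]
      omega
  · intro j hj
    rw [hlen] at hj
    unfold gap
    split_ifs with h1 h2
    · exact k5 j h1.le
    · exact Nat.zero_le _
    · exact k5 _ le_rfl
  · rw [hlen]
    have h7 := k6.mono (r' := l.length + 1) le_rfl (fun _ _ => le_rfl) (le_max_left a₀ 1)
      (le_max_left w₀ 1) ((max_le k3 hw1).trans (hwa.trans haJ)) le_rfl
    refine nat_chn_app h7 (fun j hj => ?_) ?_ (fun j hj h8 => ?_) (le_max_right _ _)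
      ((max_le k3 hw1).trans (hwa.trans haJ))
    · show (l ++ [x]).getD j k = l.getD j k
      rw [List.getD_append _ _ _ _ hj]
    · show (l ++ [x]).getD (l.length + 1) k = l.getD l.length k
      rw [List.getD_eq_default _ _ (by simp), List.getD_eq_default _ _ le_rfl]
    · have h9 : (l ++ [x]).getD l.length k = x := by
        rw [List.getD_append_right _ _ _ _ le_rfl, Nat.sub_self]
        rfl
      have h10 : l.getD j k ∈ l := by
        rw [List.getD_eq_getElem _ _ hj]
        exact List.getElem_mem hj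
      rw [h9] at h8
      exact hx (h8 ▸ h10)

/-- **The thresholds over one more coordinate are larger**, at a rational point above. -/
theorem nat_app' {S : PCl n} (hS : S.Ne) {θ : ℝ} {P : List (Fin n) × Fin n → ℝ → ℝ → ℝ}
    (hP : ThrOf (Pool.CHT.chsys n θ) S P) {l : List (Fin n)} {k x : Fin n} (hx : x ∉ l)
    {a w : ℝ} {a' w' : ℚ} (hw : 0 < w) (hwa : w ≤ a) (ha : a ≤ a') (hww : w ≤ w')
    (hwa' : w' ≤ a') (ha' : a' ≤ 1) : P (l, k) a w ≤ P (l ++ [x], k) a' w' :=
  thr_le1 (L := Pool.CHT.chsys n θ) (L' := Pool.CHT.chsys n θ) (i := (l, k)) (i' := (l ++ [x], k)) hS hP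
    hP (fun K => ⟨K, fun _ _ _ _ _ _ h1 h2 h3 hT => nat_cht_app hx h1 h2 h3 hT⟩) hw hwa ha hww hwa' ha'

/-- **The thresholds over one more coordinate are larger**, at all points, if the smaller one is
regular. -/
theorem nat_app {S : PCl n} (hS : S.Ne) {θ : ℝ} {P : List (Fin n) × Fin n → ℝ → ℝ → ℝ}
    (hP : ThrOf (Pool.CHT.chsys n θ) S P) {l : List (Fin n)} {k x : Fin n} (hx : x ∉ l)
    (hR : Reg (P (l, k))) {a w : ℝ} (hw : 0 < w) (hwa : w ≤ a) (ha : a ≤ 1) :
    P (l, k) a w ≤ P (l ++ [x], k) a w :=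
  hR.le (hP.law _) (fun a' w' k1 k2 k3 => nat_app' hS hP hx (by exact_mod_cast k1)
    (by exact_mod_cast k2) le_rfl le_rfl k2 k3) hw hwa ha

/-- The exponents with one more place. -/
theorem w_nlp {k l : ℕ} {g : ℕ → ℕ} (_hl : l < k) : Pool.W.GEN.nlp g l k ≤ Pool.W.GEN.nlp (gap k g) l (k + 1) := by
  have e1 : gap k g (k + 1) = g k := by
    unfold gap
    rw [if_neg (by omega), if_neg (by omega)]
  unfold Pool.W.GEN.nlp
  rw [e1]
  refine Nat.sub_le_sub_right (Finset.sup_le fun j hj => ?_) _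
  rw [Finset.mem_range] at hj
  rcases Nat.lt_or_ge j k with h1 | h1
  · have e2 : gap k g j = g j := if_pos h1
    rw [← e2]
    exact Finset.le_sup (f := gap k g) (Finset.mem_range.2 (by omega))
  · have e3 : j = k := by omega
    rw [e3, ← e1]
    exact Finset.le_sup (f := gap k g) (Finset.mem_range.2 (by omega))

/-- **One more label before the last one.** -/
theorem w_chn_app {F : Fam n J} {c c' : ℕ → Fin n} {k K a w e : ℕ} {g : ℕ → ℕ} {A : F.Ω → Prop}
    (h : Pool.W.GEN.ChN F c (k + 1) (fun _ => K) a w e g A) (h1 : ∀ j < k, c' j = c j)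
    (h2 : c' (k + 1) = c k) (hx : ∀ j < k, c' k ≠ c j) (hw1 : 1 ≤ w) (hwJ : w ≤ J) :
    Pool.W.GEN.ChN F c' (k + 2) (fun _ => K) a w e (gap k g) A := by
  obtain ⟨G, H, h⟩ := h
  obtain ⟨G1, H1, t⟩ := Pool.W.CHT.chN_trivial F (fun _ => c' k) 1 (fun _ => 0) a e (P := 0) hw1 hwJ A
  obtain ⟨G', hG'⟩ : ∃ G' : PtT F → ℕ → MvPolynomial (Option (Fin n)) ℝ,
    G' = fun y j => if j < k then G y j else if j = k then G1 y 0 else G y k := ⟨_, rfl⟩
  obtain ⟨H', hH'⟩ : ∃ H' : LnT F → ℕ → MvPolynomial (Option (Fin n)) ℝ,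
    H' = fun s j => if j < k then H s j else if j = k then H1 s 0 else H s k := ⟨_, rfl⟩
  have a1 : ∀ y j, j < k → G' y j = G y j := fun y j hj => by rw [hG']; exact if_pos hj
  have a2 : ∀ y, G' y k = G1 y 0 := fun y => by
    rw [hG']
    show (if k < k then G y k else if k = k then G1 y 0 else G y k) = _
    rw [if_neg (lt_irrefl k), if_pos rfl]
  have a3 : ∀ y j, k < j → G' y j = G y k := fun y j hj => by
    rw [hG']
    show (if j < k then G y j else if j = k then G1 y 0 else G y k) = _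
    rw [if_neg (by omega), if_neg (by omega)]
  have b1 : ∀ s j, j < k → H' s j = H s j := fun s j hj => by rw [hH']; exact if_pos hj
  have b2 : ∀ s, H' s k = H1 s 0 := fun s => by
    rw [hH']
    show (if k < k then H s k else if k = k then H1 s 0 else H s k) = _
    rw [if_neg (lt_irrefl k), if_pos rfl]
  have b3 : ∀ s j, k < j → H' s j = H s k := fun s j hj => by
    rw [hH']
    show (if j < k then H s j else if j = k then H1 s 0 else H s k) = _
    rw [if_neg (by omega), if_neg (by omega)]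
  have g1 : ∀ j < k, gap k g j = g j := fun j hj => if_pos hj
  have g2 : gap k g k = 0 := by
    unfold gap
    rw [if_neg (lt_irrefl k), if_pos rfl]
  have g3 : gap k g (k + 1) = g k := by
    unfold gap
    rw [if_neg (by omega), if_neg (by omega)]
  have hb : ∀ (y : PtT F) (t : ℝ) (i j : ℕ) (b : Option (Fin n) → ℝ), i ≤ k → i ≤ j →
      NBx c' (G' y) (gap k g) a t j b → NBx c (G y) g a t i b := by
    intro y t i j b hi hij hb
    refine ⟨hb.1, fun l hl => ?_⟩
    have h3 := hb.2 l (by omega)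
    rwa [h1 l (by omega), a1 y l (by omega), g1 l (by omega)] at h3
  have hb1 : ∀ (y : PtT F) (t : ℝ) (j : ℕ) (b : Option (Fin n) → ℝ),
      NBx c' (G' y) (gap k g) a t j b → NBx (fun _ => c' k) (G1 y) (fun _ => 0) a t 0 b :=
    fun y t j b hb => ⟨hb.1, fun l hl => absurd hl (Nat.not_lt_zero l)⟩
  have dc : ∀ {c₁ : ℕ → Fin n} {Q : MvPolynomial (Option (Fin n)) ℝ}, DepC c₁ 0 Q → ∀ i,
      DepC c' i Q := fun hQ i b b' k1 k2 => hQ b b' k1 fun l hl => absurd hl (Nat.not_lt_zero l)
  have dk : ∀ {Q : MvPolynomial (Option (Fin n)) ℝ}, DepC c k Q → ∀ i, k ≤ i → DepC c' i Q :=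
    fun hQ i hi b b' k1 k2 => hQ b b' k1 fun l hl => by
      rw [← h1 l hl]
      exact k2 l (by omega)
  have tri : ∀ i, i < k ∨ i = k ∨ k < i := fun i => by omega
  refine ⟨G', H', fun y i => ?_, fun s i => ?_, fun y i => ?_, fun s i => ?_, fun ω hω i hi => ?_,
    fun ω hω i hi b hbx => ?_, fun ω hω i hi b hbx l hl => ?_⟩
  · rcases tri i with h3 | rfl | h3
    · rw [a1 y i h3]
      exact h.degG y i
    · rw [a2 y]
      exact (t.degG y 0).trans (Nat.zero_le _)
    · rw [a3 y i h3]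
      exact h.degG y k
  · rcases tri i with h3 | rfl | h3
    · rw [b1 s i h3]
      exact h.degH s i
    · rw [b2 s]
      exact (t.degH s 0).trans (Nat.zero_le _)
    · rw [b3 s i h3]
      exact h.degH s k
  · rcases tri i with h3 | rfl | h3
    · rw [a1 y i h3]
      exact Pool.CHT.DepC.congr (h.depG y i) fun l hl => (h1 l (hl.trans h3)).symm
    · rw [a2 y]
      exact dc (t.depG y 0) _
    · rw [a3 y i h3]
      exact dk (h.depG y k) i h3.le
  · rcases tri i with h3 | rfl | h3
    · rw [b1 s i h3]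
      exact Pool.CHT.DepC.congr (h.depH s i) fun l hl => (h1 l (hl.trans h3)).symm
    · rw [b2 s]
      exact dc (t.depH s 0) _
    · rw [b3 s i h3]
      exact dk (h.depH s k) i h3.le
  · rcases tri i with h3 | rfl | h3
    · rw [a1 _ i h3, g1 i h3, h1 i h3]
      exact h.pos ω hω i (by omega)
    · rw [a2, g2]
      exact t.pos ω hω 0 one_pos
    · have h4 : i = k + 1 := by omega
      subst h4
      rw [a3 _ _ h3, g3, h2]
      exact h.pos ω hω k (by omega)
  · rcases tri i with h3 | rfl | h3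
    · rw [a1 _ i h3, b1 _ i h3, g1 i h3]
      exact h.agr ω hω i (by omega) b (hb _ _ i i b h3.le le_rfl hbx)
    · rw [a2, b2, g2]
      exact t.agr ω hω 0 one_pos b (hb1 _ _ _ b hbx)
    · have h4 : i = k + 1 := by omega
      subst h4
      rw [a3 _ _ h3, b3 _ _ h3, g3]
      exact h.agr ω hω k (by omega) b (hb _ _ k _ b le_rfl (by omega) hbx)
  · rcases tri i with h3 | rfl | h3
    · rw [a1 _ i h3, h1 l (by omega), ← Pool.W.CHT.nlp_congr (l := l) (g := g) (g' := gap k g)
        fun j hj => (g1 j (by omega)).symm]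
      exact h.lip ω hω i (by omega) b (hb _ _ i i b h3.le le_rfl hbx) l hl
    · rw [a2, Pool.CHT.DepC.pd_zero (t.depG _ 0) (by simp) (fun l' hl' => absurd hl' (Nat.not_lt_zero l')),
        abs_zero]
      positivity
    · have h4 : i = k + 1 := by omega
      subst h4
      rw [a3 _ _ h3]
      rcases Nat.lt_or_ge l k with h5 | h5
      · rw [h1 l h5]
        exact (h.lip ω hω k (by omega) b (hb _ _ k _ b le_rfl (by omega) hbx) l h5).trans
          (pow_le_pow_right₀ (by norm_num) (Nat.add_le_add_left (w_nlp h5) e))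
      · have h6 : l = k := by omega
        subst h6
        rw [Pool.CHT.DepC.pd_zero (h.depG _ l) (by simp) (fun l' hl' h7 => hx l' hl'
          (Option.some.inj h7)), abs_zero]
        positivity

/-- The place of the list with one more coordinate. -/
theorem w_cht_app {θ : ℝ} {l : List (Fin n)} {k x : Fin n} (hx : x ∉ l) {K a w P : ℕ} {F : Fam n J}
    {A : F.Ω → Prop} (hw1 : 1 ≤ w) (hwa : w ≤ a) (haJ : a ≤ J) (h : Pool.W.CHT.Cht θ l k K a w (P + 1) J F A) :
    Pool.W.CHT.Cht θ (l ++ [x]) k K a w P J F A := by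
  obtain ⟨a₀, w₀, g, k1, k2, k3, k4, k5, k6⟩ := h
  have hlen : (l ++ [x]).length = l.length + 1 := by simp
  have g3 : gap l.length g (l.length + 1) = g l.length := by
    unfold gap
    rw [if_neg (by omega), if_neg (by omega)]
  refine ⟨max a₀ 1, max w₀ 1, gap l.length g, ?_, ?_, ?_, ?_, ?_, ?_⟩
  · exact max_le_max k1 le_rfl
  · exact max_le k2 (hw1.trans hwa)
  · exact max_le k3 hw1
  · rw [hlen, g3]
    rcases Nat.lt_or_ge a₀ 1 with h1 | h1
    · have e1 : max a₀ 1 = 1 := max_eq_right h1.le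
      rw [e1]
      omega
    · have e1 : max a₀ 1 = a₀ := max_eq_left h1
      rw [e1]
      omega
  · intro j hj
    rw [hlen] at hj
    unfold gap
    split_ifs with h1 h2
    · exact k5 j h1.le
    · exact Nat.zero_le _
    · exact k5 _ le_rfl
  · rw [hlen]
    have h7 := k6.mono (r' := l.length + 1) le_rfl (fun _ _ => le_rfl) (le_max_left a₀ 1)
      (le_max_left w₀ 1) ((max_le k3 hw1).trans (hwa.trans haJ)) le_rfl
    refine w_chn_app h7 (fun j hj => ?_) ?_ (fun j hj h8 => ?_) (le_max_right _ _)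
      ((max_le k3 hw1).trans (hwa.trans haJ))
    · show (l ++ [x]).getD j k = l.getD j k
      rw [List.getD_append _ _ _ _ hj]
    · show (l ++ [x]).getD (l.length + 1) k = l.getD l.length k
      rw [List.getD_eq_default _ _ (by simp), List.getD_eq_default _ _ le_rfl]
    · have h9 : (l ++ [x]).getD l.length k = x := by
        rw [List.getD_append_right _ _ _ _ le_rfl, Nat.sub_self]
        rfl
      have h10 : l.getD j k ∈ l := by
        rw [List.getD_eq_getElem _ _ hj]
        exact List.getElem_mem hj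
      rw [h9] at h8
      exact hx (h8 ▸ h10)

/-- **The thresholds over one more coordinate are larger**, at a rational point above. -/
theorem w_app' {S : PCl n} (hS : S.Ne) {θ : ℝ} {P : List (Fin n) × Fin n → ℝ → ℝ → ℝ}
    (hP : ThrOf (Pool.W.CHT.chsys n θ) S P) {l : List (Fin n)} {k x : Fin n} (hx : x ∉ l)
    {a w : ℝ} {a' w' : ℚ} (hw : 0 < w) (hwa : w ≤ a) (ha : a ≤ a') (hww : w ≤ w')
    (hwa' : w' ≤ a') (ha' : a' ≤ 1) : P (l, k) a w ≤ P (l ++ [x], k) a' w' :=
  thr_le1 (L := Pool.W.CHT.chsys n θ) (L' := Pool.W.CHT.chsys n θ) (i := (l, k)) (i' := (l ++ [x], k)) hS hP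
    hP (fun K => ⟨K, fun _ _ _ _ _ _ h1 h2 h3 hT => w_cht_app hx h1 h2 h3 hT⟩) hw hwa ha hww hwa' ha'

/-- **The thresholds over one more coordinate are larger**, at all points, if the smaller one is
regular. -/
theorem w_app {S : PCl n} (hS : S.Ne) {θ : ℝ} {P : List (Fin n) × Fin n → ℝ → ℝ → ℝ}
    (hP : ThrOf (Pool.W.CHT.chsys n θ) S P) {l : List (Fin n)} {k x : Fin n} (hx : x ∉ l)
    (hR : Reg (P (l, k))) {a w : ℝ} (hw : 0 < w) (hwa : w ≤ a) (ha : a ≤ 1) :
    P (l, k) a w ≤ P (l ++ [x], k) a w :=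
  hR.le (hP.law _) (fun a' w' k1 k2 k3 => w_app' hS hP hx (by exact_mod_cast k1)
    (by exact_mod_cast k2) le_rfl le_rfl k2 k3) hw hwa ha

end Pool.SWR
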