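import Pool.Agent.H31.W1.H2.GEN.ChT
import Pool.Agent.H31.W1.H1.GEN.One
import Pool.Agent.H2.GEN.ChBt

/-!
# The labels with the exponents over all places, against the natural ones

A natural chain is a chain with the larger exponents (`w_chn`), and the converse holds with a larger
gradient (`nat_chn`). So the systems of the labels of one target with any gradients are the same
(`tch_iff`, `tgs_iff`, `thr_tgs`); the thresholds with the larger exponents are at least the natural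
ones (`nat_le`) and at most the thresholds of the target (`wle_tgs`). `num3`: near a point of
continuity of the diagonal of the target, the thresholds of any exponent and of any class are at
most its value plus a small number. `num0`: the thresholds of a coordinate over the empty list do
not depend on the exponents.
-/

set_option autoImplicit false

namespace Pool.SWR

open Finset Real MvPolynomial
open Pool.Agent.H49.Ent Pool.Agent.H32.Dense Pool.STK Pool.KA Pool.KSAT Pool.K2S Pool.PB Pool.S6C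
open Pool.GEN Pool.CHT
open Pool.LBT (LSys Slo Tri ThrOf Reg)
open Pool.LEV (Law)
open Pool.LBN (cof)

variable {n J : ℕ}

/-- A chain with the exponents over all places is a natural chain, with a larger gradient. -/
theorem nat_chn {F : Fam n J} {c : ℕ → Fin n} {r : ℕ} {K : ℕ → ℕ} {a w e : ℕ} {g : ℕ → ℕ}
    {A : F.Ω → Prop} (h : Pool.W.GEN.ChN F c r K a w e g A) (hg : ∀ j < r, g j ≤ J) :
    ChN F c r K a w (e + J) g A := by
  obtain ⟨G, H, h⟩ := h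
  refine ⟨G, H, h.degG, h.degH, h.depG, h.depH, h.pos, h.agr, fun ω hω i hi b hb l hl =>
    (h.lip ω hω i hi b hb l hl).trans (pow_le_pow_right₀ (by norm_num) ?_)⟩
  have h1 : (Finset.range (i + 1)).sup g ≤ J := Finset.sup_le fun j hj => by
    rw [Finset.mem_range] at hj
    exact hg j (by omega)
  unfold Pool.W.GEN.nlp
  omega

/-- A natural chain is a chain with the exponents over all places. -/
theorem w_chn {F : Fam n J} {c : ℕ → Fin n} {r : ℕ} {K : ℕ → ℕ} {a w e : ℕ} {g : ℕ → ℕ}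
    {A : F.Ω → Prop} (h : ChN F c r K a w e g A) : Pool.W.GEN.ChN F c r K a w e g A := by
  obtain ⟨G, H, h⟩ := h
  exact ⟨G, H, h.degG, h.degH, h.depG, h.depH, h.pos, h.agr, fun ω hω i hi b hb l hl =>
    (h.lip ω hω i hi b hb l hl).trans (pow_le_pow_right₀ (by norm_num)
      (Nat.add_le_add_left (Pool.W.GEN.nlp_ge g l i) _))⟩

/-- Chains of length one have no exponents. -/
theorem chn_one {F : Fam n J} {c : ℕ → Fin n} {K : ℕ → ℕ} {a w e e' : ℕ} {g : ℕ → ℕ}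
    {A : F.Ω → Prop} (h : Pool.W.GEN.ChN F c 1 K a w e g A) : ChN F c 1 K a w e' g A := by
  obtain ⟨G, H, h⟩ := h
  exact ⟨G, H, h.degG, h.degH, h.depG, h.depH, h.pos, h.agr, fun ω hω i hi b hb l hl =>
    absurd hl (by omega)⟩

/-- **The labels of one target with any gradients** are the same in the two systems. -/
theorem tch_iff {l : List (Fin n)} {k : Fin n} {K a w P : ℕ} {F : Fam n J} {A : F.Ω → Prop} :
    Pool.W.LBN.Tch l k K a w P J F A ↔ Pool.LBN.Tch l k K a w P J F A := by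
  constructor
  · rintro ⟨a₀, w₀, e, g, h1, h2, h3, h4, h5, h6⟩
    exact ⟨a₀, w₀, e + J, g, h1, h2, h3, h4, h5, nat_chn h6 fun j hj => h5 j (by omega)⟩
  · rintro ⟨a₀, w₀, e, g, h1, h2, h3, h4, h5, h6⟩
    exact ⟨a₀, w₀, e, g, h1, h2, h3, h4, h5, w_chn h6⟩

theorem tgs_iff {k : Fin n} {K a w P : ℕ} {F : Fam n J} {A : F.Ω → Prop} :
    (Pool.W.ONE.tgs k).T () K a w P J F A ↔ (Pool.ONE.tgs k).T () K a w P J F A := by
  constructor
  · rintro ⟨l, h1, h2, h3⟩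
    exact ⟨l, h1, h2, tch_iff.1 h3⟩
  · rintro ⟨l, h1, h2, h3⟩
    exact ⟨l, h1, h2, tch_iff.2 h3⟩

/-- **The thresholds of one target with any gradients** are the same in the two systems. -/
theorem thr_tgs {k : Fin n} {S : PCl n} {Q : ℝ → ℝ → ℝ} :
    ThrOf (Pool.W.ONE.tgs k) S (fun _ => Q) ↔ ThrOf (Pool.ONE.tgs k) S (fun _ => Q) := by
  constructor
  · intro h
    exact ⟨fun _ => h.law (), fun _ => h.low (), fun _ => h.up (), fun _ a w e k1 k2 k3 k4 k5 => by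
      obtain ⟨K, hK⟩ := h.att () a w e k1 k2 k3 k4 k5
      exact ⟨K, Bas.mono 0 hK fun J _ F A hT => tgs_iff.1 hT⟩, fun _ K a w e k1 k2 k3 k4 k5 =>
      Bas.mono 0 (h.no () K a w e k1 k2 k3 k4 k5) fun J _ F A hn hT => hn (tgs_iff.2 hT)⟩
  · intro h
    exact ⟨fun _ => h.law (), fun _ => h.low (), fun _ => h.up (), fun _ a w e k1 k2 k3 k4 k5 => by
      obtain ⟨K, hK⟩ := h.att () a w e k1 k2 k3 k4 k5
      exact ⟨K, Bas.mono 0 hK fun J _ F A hT => tgs_iff.2 hT⟩, fun _ K a w e k1 k2 k3 k4 k5 =>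
      Bas.mono 0 (h.no () K a w e k1 k2 k3 k4 k5) fun J _ F A hn hT => hn (tgs_iff.1 hT)⟩

/-- Chain labels of the copy are labels of the target. -/
theorem w_tch {θ₀ : ℝ} {l : List (Fin n)} {k : Fin n} {K a w P : ℕ} {F : Fam n J}
    {A : F.Ω → Prop} (h : Pool.W.CHT.Cht θ₀ l k K a w P J F A) : Pool.LBN.Tch l k K a w P J F A := by
  obtain ⟨a₀, w₀, g, h1, h2, h3, h4, h5, h6⟩ := h
  exact ⟨a₀, w₀, _, g, h1, h2, h3, h4, h5, Pool.LBN.chn_congr (nat_chn h6 fun j hj => h5 j (by omega))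
    (fun j hj => Pool.CHB.cof_getD (Nat.lt_succ_iff.1 hj)) (fun _ _ => le_rfl) fun _ _ => rfl⟩

/-- Natural chain labels are chain labels of the copy. -/
theorem w_cht {θ₀ : ℝ} {l : List (Fin n)} {k : Fin n} {K a w P : ℕ} {F : Fam n J}
    {A : F.Ω → Prop} (h : Cht θ₀ l k K a w P J F A) : Pool.W.CHT.Cht θ₀ l k K a w P J F A := by
  obtain ⟨a₀, w₀, g, h1, h2, h3, h4, h5, h6⟩ := h
  exact ⟨a₀, w₀, g, h1, h2, h3, h4, h5, w_chn h6⟩

/-- Over the empty list the exponents do not matter. -/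
theorem cht_nil {θ₀ θ₁ : ℝ} {k : Fin n} {K a w P : ℕ} {F : Fam n J} {A : F.Ω → Prop}
    (h : Pool.W.CHT.Cht θ₀ [] k K a w P J F A) : Cht θ₁ [] k K a w P J F A := by
  obtain ⟨a₀, w₀, g, h1, h2, h3, h4, h5, h6⟩ := h
  exact ⟨a₀, w₀, g, h1, h2, h3, h4, h5, chn_one h6⟩

variable {S : PCl n}

/-- **The natural thresholds are at most the thresholds of the copy.** -/
theorem nat_le (hS : S.Ne) {θ₀ : ℝ} {P PW : List (Fin n) × Fin n → ℝ → ℝ → ℝ}
    (hP : ThrOf (chsys n θ₀) S P) (hPW : ThrOf (Pool.W.CHT.chsys n θ₀) S PW)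
    {i : List (Fin n) × Fin n} (hR : Reg (P i)) :
    ∀ a w : ℝ, 0 < w → w ≤ a → a ≤ 1 → P i a w ≤ PW i a w := fun _ _ h1 h2 h3 =>
  hR.le (hPW.law i) (fun _ _ k1 k2 k3 => Pool.LBT.thr_le (L := chsys n θ₀)
    (L' := Pool.W.CHT.chsys n θ₀) (i := i) (i' := i) hS hP hPW (fun K =>
    ⟨K, fun _ _ _ _ _ _ hT => w_cht hT⟩) k1 k2 k3) h1 h2 h3

/-- The same without regularity, at a rational point above. -/
theorem nat_le' (hS : S.Ne) {θ₀ : ℝ} {P PW : List (Fin n) × Fin n → ℝ → ℝ → ℝ}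
    (hP : ThrOf (chsys n θ₀) S P) (hPW : ThrOf (Pool.W.CHT.chsys n θ₀) S PW)
    (i : List (Fin n) × Fin n) {a w : ℝ} {a' w' : ℚ} (hw : 0 < w) (hwa : w ≤ a) (ha : a ≤ a')
    (hww : w ≤ w') (hwa' : w' ≤ a') (ha' : a' ≤ 1) : P i a w ≤ PW i a' w' :=
  Pool.LBT.thr_le' (L := chsys n θ₀) (L' := Pool.W.CHT.chsys n θ₀) (i := i) (i' := i) hS hP hPW
    (fun K => ⟨K, fun _ _ _ _ _ _ hT => w_cht hT⟩) hw hwa ha hww hwa' ha'

/-- **The thresholds of the copy are at most the thresholds of the target.** -/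
theorem wle_tgs (hS : S.Ne) {θ₀ : ℝ} {P : List (Fin n) × Fin n → ℝ → ℝ → ℝ}
    (hP : ThrOf (Pool.W.CHT.chsys n θ₀) S P) {i : List (Fin n) × Fin n} (hi : i.1.Nodup)
    (hi' : i.2 ∉ i.1) (hR : Reg (P i)) {Q : ℝ → ℝ → ℝ}
    (hQ : ThrOf (Pool.ONE.tgs i.2) S (fun _ => Q)) :
    ∀ a w : ℝ, 0 < w → w ≤ a → a ≤ 1 → P i a w ≤ Q a w := fun _ _ h1 h2 h3 =>
  hR.le (hQ.law ()) (fun _ _ k1 k2 k3 => Pool.LBT.thr_le (L := Pool.W.CHT.chsys n θ₀)
    (L' := Pool.ONE.tgs i.2) (i := i) (i' := ()) hS hP hQ (fun K =>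
    ⟨K, fun _ _ _ _ _ _ hT => ⟨i.1, hi, hi', w_tch hT⟩⟩) k1 k2 k3) h1 h2 h3

/-- The same without regularity, at a rational point above. -/
theorem wle_tgs' (hS : S.Ne) {θ₀ : ℝ} {P : List (Fin n) × Fin n → ℝ → ℝ → ℝ}
    (hP : ThrOf (Pool.W.CHT.chsys n θ₀) S P) {i : List (Fin n) × Fin n} (hi : i.1.Nodup)
    (hi' : i.2 ∉ i.1) {Q : ℝ → ℝ → ℝ} (hQ : ThrOf (Pool.ONE.tgs i.2) S (fun _ => Q))
    {a w : ℝ} {a' w' : ℚ} (hw : 0 < w) (hwa : w ≤ a) (ha : a ≤ a')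
    (hww : w ≤ w') (hwa' : w' ≤ a') (ha' : a' ≤ 1) : P i a w ≤ Q a' w' :=
  Pool.LBT.thr_le' (L := Pool.W.CHT.chsys n θ₀) (L' := Pool.ONE.tgs i.2) (i := i) (i' := ()) hS hP
    hQ (fun K => ⟨K, fun _ _ _ _ _ _ hT => ⟨i.1, hi, hi', w_tch hT⟩⟩) hw hwa ha hww hwa' ha'

/-- **Over the empty list** the thresholds of the copy and the natural ones agree up to the
points: at a rational point above. -/
theorem w_nil (hS : S.Ne) {θ₀ θ₁ : ℝ} {P PW : List (Fin n) × Fin n → ℝ → ℝ → ℝ}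
    (hPW : ThrOf (Pool.W.CHT.chsys n θ₀) S PW) (hP : ThrOf (chsys n θ₁) S P)
    (k : Fin n) {a w : ℝ} {a' w' : ℚ} (hw : 0 < w) (hwa : w ≤ a) (ha : a ≤ a')
    (hww : w ≤ w') (hwa' : w' ≤ a') (ha' : a' ≤ 1) : PW ([], k) a w ≤ P ([], k) a' w' :=
  Pool.LBT.thr_le' (L := Pool.W.CHT.chsys n θ₀) (L' := chsys n θ₁) (i := ([], k)) (i' := ([], k))
    hS hPW hP (fun K => ⟨K, fun _ _ _ _ _ _ hT => cht_nil hT⟩) hw hwa ha hww hwa' ha'

/-- A bound at the rational points above, and a limit from the right, give a bound near a window. -/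
theorem near_of {p q : ℝ → ℝ} {V : ℝ} (hV : V < 1)
    (h : ∀ x : ℝ, V ≤ x → ∀ y : ℚ, x ≤ y → (y : ℝ) ≤ 1 → p x ≤ q y)
    (hq : ∀ e : ℝ, 0 < e → ∃ d : ℝ, 0 < d ∧ ∀ y : ℝ, V < y → y < V + d → q y ≤ q V + e) :
    ∀ e : ℝ, 0 < e → ∃ d : ℝ, 0 < d ∧ ∀ x : ℝ, V ≤ x → x ≤ V + d → p x ≤ q V + e := by
  intro e he
  obtain ⟨d, hd, hd'⟩ := hq e he
  obtain ⟨δ, hδ⟩ : ∃ δ, δ = min (d / 2) ((1 - V) / 2) := ⟨_, rfl⟩
  have h1 : δ ≤ d / 2 := hδ ▸ min_le_left _ _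
  have h2 : δ ≤ (1 - V) / 2 := hδ ▸ min_le_right _ _
  have h3 : 0 < δ := hδ ▸ lt_min (half_pos hd) (by linarith)
  refine ⟨δ, h3, fun x hx hx' => ?_⟩
  obtain ⟨y, hy, hy'⟩ := exists_rat_btwn (show x < min (V + d) 1 from lt_min (by linarith)
    (by linarith))
  have e1 := hy'.trans_le (min_le_left (V + d) 1)
  have e2 := hy'.trans_le (min_le_right (V + d) 1)
  exact (h x hx y hy.le e2.le).trans (hd' y (by linarith) e1)

/-- **NUM3.** Near a window where the diagonal of the target is continuous from the right, the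
thresholds of the copy of any exponent are at most its value plus a small number. -/
theorem num3 (hS : S.Ne) {θ₂ : ℝ} {P₂ : List (Fin n) × Fin n → ℝ → ℝ → ℝ}
    (hP : ThrOf (Pool.W.CHT.chsys n θ₂) S P₂) {i : List (Fin n) × Fin n} (hi : i.1.Nodup)
    (hi' : i.2 ∉ i.1) {Pt : ℝ → ℝ → ℝ} (hQ : ThrOf (Pool.ONE.tgs i.2) S (fun _ => Pt)) {V : ℝ}
    (hV0 : 0 < V) (hV : V < 1)
    (hc : ∀ e : ℝ, 0 < e → ∃ d : ℝ, 0 < d ∧ ∀ y : ℝ, V < y → y < V + d → Pt y y ≤ Pt V V + e) :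
    ∀ e : ℝ, 0 < e → ∃ d : ℝ, 0 < d ∧ ∀ x : ℝ, V ≤ x → x ≤ V + d → P₂ i x x ≤ Pt V V + e :=
  near_of (p := fun x => P₂ i x x) (q := fun x => Pt x x) hV (fun x hx y hxy hy =>
    wle_tgs' hS hP hi hi' hQ (a' := y) (w' := y) (hV0.trans_le hx) le_rfl hxy hxy le_rfl
      (by exact_mod_cast hy)) hc

/-- **NUM0.** The same for a coordinate over the empty list. -/
theorem num0 (hS : S.Ne) {θ₂ θ₁ : ℝ} {P₂ P : List (Fin n) × Fin n → ℝ → ℝ → ℝ}
    (hP₂ : ThrOf (Pool.W.CHT.chsys n θ₂) S P₂) (hP : ThrOf (chsys n θ₁) S P) (k : Fin n) {V : ℝ}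
    (hV0 : 0 < V) (hV : V < 1) (hc : ∀ e : ℝ, 0 < e → ∃ d : ℝ, 0 < d ∧ ∀ y : ℝ, V < y → y < V + d →
      P ([], k) y y ≤ P ([], k) V V + e) :
    ∀ e : ℝ, 0 < e → ∃ d : ℝ, 0 < d ∧ ∀ x : ℝ, V ≤ x → x ≤ V + d →
      P₂ ([], k) x x ≤ P ([], k) V V + e :=
  near_of (p := fun x => P₂ ([], k) x x) (q := fun x => P ([], k) x x) hV (fun x hx y hxy hy =>
    w_nil hS hP₂ hP k (a' := y) (w' := y) (hV0.trans_le hx) le_rfl hxy hxy le_rfl
      (by exact_mod_cast hy)) hc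

/-- Along an injective list: the data of `num3` at the place `j`. -/
theorem bet_nodup {c : ℕ → Fin n} {j : ℕ} (hc : Set.InjOn c (Set.Iic j)) :
    ((List.range j).map c).Nodup ∧ c j ∉ (List.range j).map c := by
  constructor
  · refine List.Nodup.map_on (fun x hx y hy hxy => ?_) (List.nodup_range)
    rw [List.mem_range] at hx hy
    exact hc (show x ≤ j by omega) (show y ≤ j by omega) hxy
  · intro h
    obtain ⟨x, hx, hxy⟩ := List.mem_map.1 h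
    rw [List.mem_range] at hx
    have := hc (show x ≤ j by omega) (show j ≤ j from le_rfl) hxy
    omega

/-- **NUM3 along a list.** -/
theorem num3_bet (hS : S.Ne) {θ₂ : ℝ} {P₂ : List (Fin n) × Fin n → ℝ → ℝ → ℝ}
    (hP : ThrOf (Pool.W.CHT.chsys n θ₂) S P₂) {c : ℕ → Fin n} {j : ℕ}
    (hcj : Set.InjOn c (Set.Iic j)) {Pt : ℝ → ℝ → ℝ}
    (hQ : ThrOf (Pool.ONE.tgs (c j)) S (fun _ => Pt)) {V : ℝ} (hV0 : 0 < V) (hV : V < 1)
    (hc : ∀ e : ℝ, 0 < e → ∃ d : ℝ, 0 < d ∧ ∀ y : ℝ, V < y → y < V + d → Pt y y ≤ Pt V V + e) :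
    ∀ e : ℝ, 0 < e → ∃ d : ℝ, 0 < d ∧ ∀ x : ℝ, V ≤ x → x ≤ V + d →
      bet P₂ c j x x ≤ Pt V V + e :=
  num3 (i := ((List.range j).map c, c j)) hS hP (bet_nodup hcj).1 (bet_nodup hcj).2 hQ hV0 hV hc

end Pool.SWR
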