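import Pool.Agent.H50.SWR.Num3
import Pool.Agent.H87.GEN.Pkg
import Pool.Agent.H3.SWP.Swp

/-!
# Upper bounds from the right at good windows

`ratc_last`, `ratc_zero`: the field `ratc` of the record of a target, at the last coordinate and at
the first one, at a good window, for the thresholds of the copy of any exponent and of any subclass.
-/

set_option autoImplicit false

namespace Pool.SWR

open Finset Real MvPolynomial
open Pool.Agent.H49.Ent Pool.Agent.H32.Dense Pool.STK Pool.KA Pool.KSAT Pool.K2S Pool.PB Pool.S6C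
open Pool.GEN Pool.CHT Pool.PKG Pool.ONE
open Pool.LBT (LSys Slo Tri ThrOf Reg)
open Pool.LEV (Law)
open Pool.SWP (sw)

variable {n : ℕ} {hn : 2 ≤ n} {S : PCl n} {P : ℝ → ℝ → ℝ} {r : ℝ → ℝ}
  {P' : ℕ → List (Fin n) × Fin n → ℝ → ℝ → ℝ} {Λ : Finset (Fin n) → Fin n → ℝ → ℝ → ℝ}
  {o : Od n} {V : ℝ}

theorem gs_pos (hV : V ∈ Gs P r P' Λ o) : 0 < V ∧ V < 1 := ⟨hV.1.1.1, hV.1.1.2.1⟩

/-- The diagonals of the natural thresholds are continuous at a good window. -/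
theorem gs_con (hV : V ∈ Gs P r P' Λ o) (i : List (Fin n) × Fin n) :
    ContinuousAt (fun v => P' o.2 i v v) V :=
  cont_of (gs_pos hV).1 (gs_pos hV).2 (hV.1.2 i)

/-- The diagonal of the target is continuous at a good window. -/
theorem gs_conP (hV : V ∈ Gs P r P' Λ o) : ContinuousAt (fun v => P v v) V :=
  cont_of (gs_pos hV).1 (gs_pos hV).2 hV.2.2

theorem right_of {q : ℝ → ℝ} (h : ContinuousAt q V) :
    ∀ e : ℝ, 0 < e → ∃ d : ℝ, 0 < d ∧ ∀ y : ℝ, V < y → y < V + d → q y ≤ q V + e := by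
  intro e he
  obtain ⟨d, hd, hd'⟩ := Metric.continuousAt_iff.1 h e he
  refine ⟨d, hd, fun y hy hy' => ?_⟩
  have h1 := hd' (x := y) (by rw [Real.dist_eq, abs_of_pos (by linarith)]; linarith)
  rw [Real.dist_eq] at h1
  linarith [le_abs_self (q y - q V)]

/-- **The last coordinate.** -/
theorem ratc_last (H : Pk hn S P r P' Λ) (hV : V ∈ Gs P r P' Λ o) {S₂ : PCl n}
    (hs : ∀ (τ : ℝ) (J : ℕ) (F : Fam n J) (A : F.Ω → Prop), S₂.St τ J F A → S.St τ J F A)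
    (hne : S₂.Ne) {θ₂ : ℝ} {P₂ : List (Fin n) × Fin n → ℝ → ℝ → ℝ}
    (h₂ : ThrOf (Pool.W.CHT.chsys n θ₂) S₂ P₂) {c : ℕ → Fin n} {j : ℕ}
    (hcj : Set.InjOn c (Set.Iic j)) (hl : c j = lst hn) :
    ∀ e : ℝ, 0 < e → ∃ d : ℝ, 0 < d ∧ ∀ x : ℝ, V ≤ x → x ≤ V + d →
      bet P₂ c j x x ≤ P V V + e := by
  have h1 : ThrOf (Pool.ONE.tgs (c j)) S₂ (fun _ => P) := by
    rw [hl]
    exact H.tgs.sub hs
  exact num3_bet hne h₂ hcj h1 (gs_pos hV).1 (gs_pos hV).2 (right_of (gs_conP hV))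

/-- **The first coordinate.** -/
theorem ratc_zero (H : Pk hn S P r P' Λ) (hV : V ∈ Gs P r P' Λ o) {S₂ : PCl n}
    (hs : ∀ (τ : ℝ) (J : ℕ) (F : Fam n J) (A : F.Ω → Prop), S₂.St τ J F A → S.St τ J F A)
    (hne : S₂.Ne) {θ₂ : ℝ} {P₂ PW : List (Fin n) × Fin n → ℝ → ℝ → ℝ}
    (h₂ : ThrOf (Pool.W.CHT.chsys n θ₂) S₂ P₂) (hW : ThrOf (Pool.W.CHT.chsys n (tht o.2)) S PW)
    (c : ℕ → Fin n) :
    ∀ e : ℝ, 0 < e → ∃ d : ℝ, 0 < d ∧ ∀ x : ℝ, V ≤ x → x ≤ V + d →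
      bet P₂ c 0 x x ≤ bet PW c 0 V V + e := by
  intro e he
  obtain ⟨d, hd, h1⟩ := num0 hne h₂ ((H.cht o.2).sub hs) (c 0) (gs_pos hV).1 (gs_pos hV).2
    (right_of (gs_con hV ([], c 0))) e he
  refine ⟨d, hd, fun x hx hx' => ?_⟩
  have h2 := h1 x hx hx'
  have h3 := nat_le (i := ([], c 0)) H.ne (H.cht o.2) hW (H.reg o.2 ([], c 0)) V V (gs_pos hV).1 le_rfl
    (gs_pos hV).2.le
  have e1 : bet P₂ c 0 x x = P₂ ([], c 0) x x := rfl
  have e2 : bet PW c 0 V V = PW ([], c 0) V V := rfl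
  rw [e1, e2]
  linarith

end Pool.SWR
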